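import Pool.Agent.T9h7.PL.Lim

set_option autoImplicit false
set_option linter.unusedVariables false

/-!
# Exceptional sets from a bound for a weighted sum
-/

namespace Pool.Agent.T9h7.PL

open Filter Topology
open Pool.Agent.R79.SW

/-- if the partial sums of `a j` are at most `K log n`, then `∑ a j j^(-ε)` converges -/
theorem summable_of_log {a : ℕ → ℝ} (ha : ∀ j, 0 ≤ a j) {K : ℝ} (hK : 0 ≤ K)
    (h : ∀ n : ℕ, 2 ≤ n → ∑ j ∈ Finset.Icc 2 n, a j ≤ K * Real.log n) {ε : ℝ} (hε : 0 < ε) :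
    Summable (fun j : ℕ => a (j + 2) * ((j + 2 : ℕ) : ℝ) ^ (-ε)) := by
  set b : ℕ → ℝ := fun j => a j * (j : ℝ) ^ (-ε) with hb
  have hb0 : ∀ j, 0 ≤ b j := fun j => mul_nonneg (ha j) (Real.rpow_nonneg (Nat.cast_nonneg j) _)
  set q : ℝ := (2 : ℝ) ^ (-ε) with hq
  have hq0 : 0 < q := Real.rpow_pos_of_pos (by norm_num) _
  have hq1 : q < 1 := Real.rpow_lt_one_of_one_lt_of_neg (by norm_num) (by linarith)
  have hs : Summable (fun k : ℕ => (K * Real.log 2) * (((k : ℝ) + 2) * q ^ k)) := by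
    apply Summable.mul_left
    have s1 := summable_pow_mul_geometric_of_norm_lt_one 1
      (r := q) (by rwa [Real.norm_of_nonneg hq0.le])
    have s2 := (summable_geometric_of_lt_one hq0.le hq1).mul_left 2
    refine (s1.add s2).congr fun k => ?_
    ring
  have block : ∀ k : ℕ, 1 ≤ k → ∑ j ∈ Finset.Ico (2 ^ k) (2 ^ (k + 1)), b j ≤
      (K * Real.log 2) * (((k : ℝ) + 2) * q ^ k) := by
    intro k hk
    have h2k : 2 ≤ 2 ^ k := by
      calc 2 = 2 ^ 1 := by norm_num
        _ ≤ 2 ^ k := Nat.pow_le_pow_right (by norm_num) hk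
    have e1 : ∀ j ∈ Finset.Ico (2 ^ k) (2 ^ (k + 1)), b j ≤ a j * q ^ k := by
      intro j hj
      have hj1 := (Finset.mem_Ico.mp hj).1
      simp only [hb]
      apply mul_le_mul_of_nonneg_left _ (ha j)
      rw [hq, ← Real.rpow_natCast, ← Real.rpow_mul (by norm_num), mul_comm, Real.rpow_mul
        (by norm_num), Real.rpow_natCast]
      apply Real.rpow_le_rpow_of_nonpos (by positivity) _ (by linarith)
      exact_mod_cast hj1
    calc ∑ j ∈ Finset.Ico (2 ^ k) (2 ^ (k + 1)), b j ≤
        ∑ j ∈ Finset.Ico (2 ^ k) (2 ^ (k + 1)), a j * q ^ k := Finset.sum_le_sum e1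
      _ = (∑ j ∈ Finset.Ico (2 ^ k) (2 ^ (k + 1)), a j) * q ^ k := by rw [Finset.sum_mul]
      _ ≤ (∑ j ∈ Finset.Icc 2 (2 ^ (k + 1)), a j) * q ^ k := by
          apply mul_le_mul_of_nonneg_right _ (by positivity)
          apply Finset.sum_le_sum_of_subset_of_nonneg
          · intro j hj
            rw [Finset.mem_Ico] at hj
            rw [Finset.mem_Icc]
            omega
          · intro j _ _
            exact ha j
      _ ≤ (K * Real.log ((2 ^ (k + 1) : ℕ) : ℝ)) * q ^ k := by
          apply mul_le_mul_of_nonneg_right _ (by positivity)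
          exact h _ (by
            calc 2 ≤ 2 ^ k := h2k
              _ ≤ 2 ^ (k + 1) := Nat.pow_le_pow_right (by norm_num) (by omega))
      _ = (K * Real.log 2) * (((k : ℝ) + 1) * q ^ k) := by
          push_cast
          rw [Real.log_pow]
          push_cast
          ring
      _ ≤ (K * Real.log 2) * (((k : ℝ) + 2) * q ^ k) := by
          have hl : 0 ≤ Real.log 2 := Real.log_nonneg (by norm_num)
          apply mul_le_mul_of_nonneg_left _ (by positivity)
          apply mul_le_mul_of_nonneg_right _ (by positivity)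
          linarith
  have part : ∀ m : ℕ, ∑ j ∈ Finset.Ico 2 (2 ^ (m + 1)), b j ≤
      ∑ k ∈ Finset.range (m + 1), (K * Real.log 2) * (((k : ℝ) + 2) * q ^ k) := by
    intro m
    induction m with
    | zero =>
      have hl : 0 ≤ Real.log 2 := Real.log_nonneg (by norm_num)
      simp only [zero_add, pow_one, Finset.Ico_self, Finset.sum_empty, Finset.range_one,
        Finset.sum_singleton, Nat.cast_zero, pow_zero, mul_one]
      positivity
    | succ m ih =>
      rw [Finset.sum_range_succ, ← Finset.sum_Ico_consecutive b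
        (show 2 ≤ 2 ^ (m + 1) by
          calc 2 = 2 ^ 1 := by norm_num
            _ ≤ 2 ^ (m + 1) := Nat.pow_le_pow_right (by norm_num) (by omega))
        (show 2 ^ (m + 1) ≤ 2 ^ (m + 1 + 1) from Nat.pow_le_pow_right (by norm_num) (by omega))]
      exact add_le_add ih (by exact_mod_cast block (m + 1) (by omega))
  refine summable_of_sum_range_le (c := ∑' k : ℕ, (K * Real.log 2) * (((k : ℝ) + 2) * q ^ k))
    (fun j => hb0 (j + 2)) fun n => ?_
  have e : ∑ i ∈ Finset.range n, a (i + 2) * ((i + 2 : ℕ) : ℝ) ^ (-ε) =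
      ∑ j ∈ Finset.Ico 2 (n + 2), b j := by
    rw [Finset.sum_Ico_eq_sum_range]
    apply Finset.sum_congr (by simp)
    intro i _
    simp only [hb]
    rw [add_comm 2 i]
  rw [e]
  have hn : n + 2 ≤ 2 ^ (n + 1 + 1) := by
    have := Nat.lt_two_pow_self (n := n + 1)
    have h3 : 2 ^ (n + 1 + 1) = 2 ^ (n + 1) + 2 ^ (n + 1) := by ring
    omega
  calc ∑ j ∈ Finset.Ico 2 (n + 2), b j ≤ ∑ j ∈ Finset.Ico 2 (2 ^ (n + 1 + 1)), b j := by
        apply Finset.sum_le_sum_of_subset_of_nonneg
        · exact Finset.Ico_subset_Ico_right hn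
        · intro j _ _
          exact hb0 j
    _ ≤ _ := part (n + 1)
    _ ≤ _ := by
        have hl : 0 ≤ Real.log 2 := Real.log_nonneg (by norm_num)
        exact hs.sum_le_tsum _ (fun k _ => by positivity)

/-- the exceptional set for the exponents -/
theorem exceptional {v : ℕ → ℝ} (hv : ∀ n, 2 ≤ n → 0 < v n) {K : ℝ} (hK : 0 ≤ K)
    (h : ∀ n : ℕ, 2 ≤ n → ∑ j ∈ Finset.Icc 2 n, Real.sqrt j * v j ≤ K * Real.log n) {ε : ℝ}
    (hε : 0 < ε) :
    Summable (fun n : ℕ => ({n : ℕ | -3 / 2 + ε ≤ ex v n}.indicator (fun n => 1 / (n : ℝ))) n) := by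
  set a : ℕ → ℝ := fun j => if 2 ≤ j then Real.sqrt j * v j else 0 with ha
  have ha0 : ∀ j, 0 ≤ a j := by
    intro j
    simp only [ha]
    split_ifs with hj
    · exact mul_nonneg (Real.sqrt_nonneg _) (hv j hj).le
    · exact le_rfl
  have h' : ∀ n : ℕ, 2 ≤ n → ∑ j ∈ Finset.Icc 2 n, a j ≤ K * Real.log n := by
    intro n hn
    refine le_trans (le_of_eq ?_) (h n hn)
    apply Finset.sum_congr rfl
    intro j hj
    simp only [ha]
    rw [if_pos (Finset.mem_Icc.mp hj).1]
  have s := summable_of_log ha0 hK h' hε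
  rw [← summable_nat_add_iff 2]
  refine Summable.of_nonneg_of_le (fun n => ?_) (fun n => ?_) s
  · apply Set.indicator_nonneg
    intro m _
    positivity
  · by_cases hn : (n + 2) ∈ {n : ℕ | -3 / 2 + ε ≤ ex v n}
    · rw [Set.indicator_of_mem hn]
      have hn2 : 2 ≤ n + 2 := by omega
      have hn0 : (0 : ℝ) < ((n + 2 : ℕ) : ℝ) := by positivity
      have hl := log_two_le hn2
      have h1 : -3 / 2 + ε ≤ ex v (n + 2) := hn
      unfold ex at h1
      rw [le_div_iff₀ hl] at h1
      have h2 : (((n + 2 : ℕ) : ℝ)) ^ (-3 / 2 + ε) ≤ v (n + 2) := by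
        rw [← Real.log_le_log_iff (by positivity) (hv _ hn2), Real.log_rpow hn0]
        exact h1
      simp only [ha]
      rw [if_pos hn2]
      have h3 : 1 / (((n + 2 : ℕ) : ℝ)) = Real.sqrt ((n + 2 : ℕ) : ℝ) *
          ((n + 2 : ℕ) : ℝ) ^ (-3 / 2 + ε) * ((n + 2 : ℕ) : ℝ) ^ (-ε) := by
        rw [Real.sqrt_eq_rpow, ← Real.rpow_add hn0, ← Real.rpow_add hn0, one_div,
          ← Real.rpow_neg_one]
        congr 1
        ring
      rw [h3]
      apply mul_le_mul_of_nonneg_right _ (Real.rpow_nonneg hn0.le _)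
      exact mul_le_mul_of_nonneg_left h2 (Real.sqrt_nonneg _)
    · rw [Set.indicator_of_notMem hn]
      exact mul_nonneg (ha0 _) (Real.rpow_nonneg (by positivity) _)

/-- so the exponents are below `-3/2 + ε` infinitely often -/
theorem freq_of_exceptional {v : ℕ → ℝ} {x : ℝ}
    (s : Summable (fun n : ℕ => ({n : ℕ | x ≤ ex v n}.indicator (fun n => 1 / (n : ℝ))) n)) :
    ∃ᶠ n in atTop, ex v n < x := by
  by_contra hcon
  rw [not_frequently] at hcon
  have h1 : ∀ᶠ n in atTop, x ≤ ex v n := hcon.mono fun n hn => not_lt.mp hn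
  obtain ⟨N, hN⟩ := eventually_atTop.mp h1
  have s2 : Summable (fun n : ℕ => 1 / ((n + N : ℕ) : ℝ)) := by
    have := (summable_nat_add_iff N).mpr s
    refine this.congr fun n => ?_
    rw [Set.indicator_of_mem]
    exact hN (n + N) (by omega)
  have s3 : Summable (fun n : ℕ => 1 / (n : ℝ)) := (summable_nat_add_iff N).mp s2
  exact Real.not_summable_one_div_natCast s3

end Pool.Agent.T9h7.PL
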