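import Pool.Agent.R79.SW.Step

set_option autoImplicit false
set_option linter.unusedVariables false

/-!
# Sequences with slowly varying logarithm: intermediate values along windows
-/

namespace Pool.Agent.T9h7.PL

open Filter Topology
open Pool.Agent.R956.D2 (f f_nonneg f_tendsto f_window)
open Pool.Agent.R79.SW

/-- positive from `n = 2` on, with increments of the logarithm at most `K f n` -/
structure Reg (v : ℕ → ℝ) (K : ℝ) : Prop where
  pos : ∀ n, 2 ≤ n → 0 < v n
  hK : 0 ≤ K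
  inc : ∀ n, 2 ≤ n → |Real.log (v (n + 1)) - Real.log (v n)| ≤ K * f n

theorem reg_of_rate {v : ℕ → ℝ} (hv : ∀ n, 2 ≤ n → 0 < v n) {K0 : ℝ}
    (h : ∀ n, 2 ≤ n → |v (n + 1) / v n - 1| ≤ K0 * (Real.log n / Real.sqrt n)) :
    ∃ K, Reg v K := by
  have t : Tendsto (fun n => |K0| * f n) atTop (𝓝 0) := by
    simpa using f_tendsto.const_mul |K0|
  have key : ∀ᶠ n in atTop, |Real.log (v (n + 1)) - Real.log (v n)| ≤ (2 * |K0|) * f n := by
    filter_upwards [t.eventually_lt_const (show (0 : ℝ) < 1 / 2 by norm_num),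
      eventually_ge_atTop 2] with n h1 hn
    have h2 : |v (n + 1) / v n - 1| ≤ |K0| * f n :=
      (h n hn).trans (mul_le_mul_of_nonneg_right (le_abs_self _) (f_nonneg n))
    have := log_step (hv n hn) (hv (n + 1) (by omega)) h2 h1.le
    linarith
  obtain ⟨K, hK, hK'⟩ := Pool.Agent.R956.V1.ev_all2
    (u := fun n => |Real.log (v (n + 1)) - Real.log (v n)|) (g := f)
    (fun n hn => Pool.Agent.R956.V1.f_pos hn) (show (0 : ℝ) ≤ 2 * |K0| by positivity) key
  exact ⟨K, hv, hK, hK'⟩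

variable {v : ℕ → ℝ} {K : ℝ}

/-- the difference `log v - c log n - log B` -/
noncomputable def dev (v : ℕ → ℝ) (c B : ℝ) (n : ℕ) : ℝ :=
  Real.log (v n) - c * Real.log n - Real.log B

lemma dev_step (R : Reg v K) (c B : ℝ) {n : ℕ} (hn : 2 ≤ n) :
    |dev v c B (n + 1) - dev v c B n| ≤ (K + 2 * |c|) * f n := by
  have h1 := R.inc n hn
  have h2 := log_add_le (show 1 ≤ n by omega) 1
  have h3 := inv_le_f hn
  have h4 : |c * Real.log ((n + 1 : ℕ) : ℝ) - c * Real.log n| ≤ 2 * |c| * f n := by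
    rw [← mul_sub, abs_mul]
    have : |Real.log ((n + 1 : ℕ) : ℝ) - Real.log n| ≤ 2 * f n := by
      refine h2.trans ?_
      simpa using h3
    calc |c| * |Real.log ((n + 1 : ℕ) : ℝ) - Real.log n| ≤ |c| * (2 * f n) :=
          mul_le_mul_of_nonneg_left this (abs_nonneg c)
      _ = _ := by ring
  have e : dev v c B (n + 1) - dev v c B n = (Real.log (v (n + 1)) - Real.log (v n)) -
      (c * Real.log ((n + 1 : ℕ) : ℝ) - c * Real.log n) := by
    unfold dev
    ring
  rw [e]
  have := abs_sub (Real.log (v (n + 1)) - Real.log (v n))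
    (c * Real.log ((n + 1 : ℕ) : ℝ) - c * Real.log n)
  linarith

lemma dev_window (R : Reg v K) (c B : ℝ) {n : ℕ} (hn : 2 ≤ n) (k : ℕ) (hk : k ≤ n) :
    |dev v c B (n + k) - dev v c B n| ≤ 2 * (K + 2 * |c|) * k * f n := by
  have hC : 0 ≤ K + 2 * |c| := by
    have := R.hK
    positivity
  induction k with
  | zero => simp
  | succ k ih =>
    have h1 := ih (by omega)
    have h2 := dev_step R c B (show 2 ≤ n + k by omega)
    have h3 := f_window hn (show n ≤ n + k by omega) (by omega)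
    have h4 : (K + 2 * |c|) * f (n + k) ≤ (K + 2 * |c|) * (2 * f n) :=
      mul_le_mul_of_nonneg_left h3 hC
    have h5 := abs_sub_le (dev v c B (n + k + 1)) (dev v c B (n + k)) (dev v c B n)
    rw [show n + (k + 1) = n + k + 1 by ring]
    push_cast
    have h6 : 2 * (K + 2 * |c|) * ((k : ℝ) + 1) * f n =
        2 * (K + 2 * |c|) * k * f n + (K + 2 * |c|) * (2 * f n) := by ring
    linarith

/-- crossings for consecutive terms -/
lemma cross1 {w : ℕ → ℝ} (hneg : ∃ᶠ n in atTop, w n < 0) (hpos : ∃ᶠ n in atTop, 0 ≤ w n) :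
    ∃ᶠ n in atTop, w n < 0 ∧ 0 ≤ w (n + 1) := by
  rw [frequently_atTop] at *
  intro N
  obtain ⟨n, hn, hw⟩ := hneg N
  obtain ⟨m, hm, hw'⟩ := hpos n
  by_contra hcon
  push Not at hcon
  have key : ∀ j : ℕ, w (n + j) < 0 := by
    intro j
    induction j with
    | zero => simpa using hw
    | succ j ih =>
      have := hcon (n + j) (by omega) ih
      rwa [show n + (j + 1) = n + j + 1 by ring]
  have h1 := key (m - n)
  rw [show n + (m - n) = m by omega] at h1
  linarith

/-- **intermediate values.** -/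
theorem main_cross (R : Reg v K) {c B : ℝ} (hB : 0 < B)
    (h1 : ∃ᶠ n : ℕ in atTop, v n < B * (n : ℝ) ^ c)
    (h2 : ∃ᶠ n : ℕ in atTop, B * (n : ℝ) ^ c < v n) :
    ∃ᶠ n : ℕ in atTop, ∀ k ≤ n, |dev v c B (n + k)| ≤ 2 * (K + 2 * |c|) * (1 + k) * f n := by
  have hC : 0 ≤ K + 2 * |c| := by
    have := R.hK
    positivity
  have a1 : ∃ᶠ n in atTop, dev v c B n < 0 := by
    refine (h1.and_eventually (eventually_ge_atTop 2)).mono ?_
    rintro n ⟨b1, b2⟩
    have hn0 : (0 : ℝ) < n := by exact_mod_cast (by omega : 0 < n)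
    have hnc : (0 : ℝ) < (n : ℝ) ^ c := Real.rpow_pos_of_pos hn0 c
    have b3 := Real.log_lt_log (R.pos n b2) b1
    rw [Real.log_mul hB.ne' hnc.ne', Real.log_rpow hn0] at b3
    unfold dev
    linarith
  have a2 : ∃ᶠ n in atTop, 0 ≤ dev v c B n := by
    refine (h2.and_eventually (eventually_ge_atTop 2)).mono ?_
    rintro n ⟨b1, b2⟩
    have hn0 : (0 : ℝ) < n := by exact_mod_cast (by omega : 0 < n)
    have hnc : (0 : ℝ) < (n : ℝ) ^ c := Real.rpow_pos_of_pos hn0 c
    have b3 := Real.log_lt_log (by positivity) b1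
    rw [Real.log_mul hB.ne' hnc.ne', Real.log_rpow hn0] at b3
    unfold dev
    linarith
  refine ((cross1 a1 a2).and_eventually (eventually_ge_atTop 2)).mono ?_
  rintro n ⟨⟨b1, b2⟩, b3⟩ k hk
  have c1 := dev_window R c B b3 k hk
  have c2 := (abs_le.mp (dev_step R c B b3)).2
  have hf := f_nonneg n
  have c3 : |dev v c B n| ≤ (K + 2 * |c|) * f n := by
    rw [abs_of_neg b1]
    linarith
  have c4 : |dev v c B (n + k)| ≤ |dev v c B (n + k) - dev v c B n| + |dev v c B n| := by
    have := abs_add_le (dev v c B (n + k) - dev v c B n) (dev v c B n)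
    rwa [sub_add_cancel] at this
  have c5 : 2 * (K + 2 * |c|) * (1 + (k : ℝ)) * f n =
      2 * (K + 2 * |c|) * k * f n + 2 * ((K + 2 * |c|) * f n) := by ring
  have c6 : 0 ≤ (K + 2 * |c|) * f n := by positivity
  linarith

lemma log_two_le {n : ℕ} (hn : 2 ≤ n) : 0 < Real.log n :=
  Real.log_pos (by exact_mod_cast (by omega : 1 < n))

/-- from exponents to amplitudes, below -/
lemma amp_low (R : Reg v K) {x c B : ℝ} (hB : 0 < B) (hx : x < c)
    (h : ∃ᶠ n in atTop, ex v n ≤ x) : ∃ᶠ n : ℕ in atTop, v n < B * (n : ℝ) ^ c := by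
  have hbig : ∀ᶠ n : ℕ in atTop, |Real.log B| + 1 ≤ (c - x) * Real.log n :=
    (log_tend.const_mul_atTop (by linarith)).eventually_ge_atTop _
  refine (h.and_eventually (hbig.and (eventually_ge_atTop 2))).mono ?_
  rintro n ⟨a1, a2, a3⟩
  have hn0 : (0 : ℝ) < n := by exact_mod_cast (by omega : 0 < n)
  have hnc : (0 : ℝ) < (n : ℝ) ^ c := Real.rpow_pos_of_pos hn0 c
  unfold ex at a1
  rw [div_le_iff₀ (log_two_le a3)] at a1
  rw [← Real.log_lt_log_iff (R.pos n a3) (by positivity), Real.log_mul hB.ne' hnc.ne',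
    Real.log_rpow hn0]
  have := neg_abs_le (Real.log B)
  linarith

/-- from exponents to amplitudes, above -/
lemma amp_high (R : Reg v K) {x c B : ℝ} (hB : 0 < B) (hx : c < x)
    (h : ∃ᶠ n in atTop, x ≤ ex v n) : ∃ᶠ n : ℕ in atTop, B * (n : ℝ) ^ c < v n := by
  have hbig : ∀ᶠ n : ℕ in atTop, |Real.log B| + 1 ≤ (x - c) * Real.log n :=
    (log_tend.const_mul_atTop (by linarith)).eventually_ge_atTop _
  refine (h.and_eventually (hbig.and (eventually_ge_atTop 2))).mono ?_
  rintro n ⟨a1, a2, a3⟩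
  have hn0 : (0 : ℝ) < n := by exact_mod_cast (by omega : 0 < n)
  have hnc : (0 : ℝ) < (n : ℝ) ^ c := Real.rpow_pos_of_pos hn0 c
  unfold ex at a1
  rw [le_div_iff₀ (log_two_le a3)] at a1
  rw [← Real.log_lt_log_iff (by positivity) (R.pos n a3), Real.log_mul hB.ne' hnc.ne',
    Real.log_rpow hn0]
  have := le_abs_self (Real.log B)
  linarith

end Pool.Agent.T9h7.PL
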