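import Pool.Agent.T9h7.PL.Base

set_option autoImplicit false
set_option linter.unusedVariables false

/-!
# Limit points of sequences with the intermediate value property
-/

namespace Pool.Agent.T9h7.PL

open Filter Topology
open Pool.Agent.R956.D2 (f f_nonneg f_tendsto f_window)
open Pool.Agent.R79.SW

/-- every value crossed infinitely often is a limit point -/
def IVP (A : ℕ → ℝ) : Prop :=
  ∀ c : ℝ, (∃ᶠ n in atTop, A n < c) → (∃ᶠ n in atTop, c < A n) → c ∈ Lims A

lemma freq_lt {A : ℕ → ℝ} {x c : ℝ} (hx : x ∈ Lims A) (h : x < c) : ∃ᶠ n in atTop, A n < c := by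
  have h1 : MapClusterPt x atTop A := hx
  rw [mapClusterPt_iff_frequently] at h1
  exact h1 _ (Iio_mem_nhds h)

lemma freq_gt {A : ℕ → ℝ} {x c : ℝ} (hx : x ∈ Lims A) (h : c < x) : ∃ᶠ n in atTop, c < A n := by
  have h1 : MapClusterPt x atTop A := hx
  rw [mapClusterPt_iff_frequently] at h1
  exact h1 _ (Ioi_mem_nhds h)

theorem ord_gen {A : ℕ → ℝ} (H : IVP A) : (Lims A).OrdConnected := by
  refine ⟨fun x hx y hy c hc => ?_⟩
  rcases eq_or_lt_of_le hc.1 with h | h
  · rwa [← h]
  rcases eq_or_lt_of_le hc.2 with h' | h'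
  · rwa [h']
  exact H c (freq_lt hx h) (freq_gt hy h')

theorem isolated_gen {A : ℕ → ℝ} (H : IVP A) {γ δ : ℝ} (hγ : γ ∈ Lims A) (hδ : 0 < δ)
    (hc : (Lims A ∩ Set.Ioo (γ - δ) (γ + δ)).Countable) : Tendsto A atTop (𝓝 γ) := by
  by_contra hcon
  obtain ⟨ε, hε, h | h⟩ := not_tendsto hcon
  · have hsub : Set.Ioo (γ - min ε δ) γ ⊆ Lims A ∩ Set.Ioo (γ - δ) (γ + δ) := by
      intro c hc
      have m1 := min_le_left ε δ
      have m2 := min_le_right ε δ
      refine ⟨?_, by linarith [hc.1], by linarith [hc.2]⟩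
      exact H c (h.mono fun n hn => by linarith [hc.1]) (freq_gt hγ hc.2)
    have := (hc.mono hsub)
    exact (Cardinal.Real.Ioo_countable_iff.mp this).not_gt (by
      have := lt_min hε hδ
      linarith)
  · have hsub : Set.Ioo γ (γ + min ε δ) ⊆ Lims A ∩ Set.Ioo (γ - δ) (γ + δ) := by
      intro c hc
      have m1 := min_le_left ε δ
      have m2 := min_le_right ε δ
      refine ⟨?_, by linarith [hc.1], by linarith [hc.2]⟩
      exact H c (freq_lt hγ hc.1) (h.mono fun n hn => by linarith [hc.2])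
    have := (hc.mono hsub)
    exact (Cardinal.Real.Ioo_countable_iff.mp this).not_gt (by
      have := lt_min hε hδ
      linarith)

theorem isolated_iff_gen {A : ℕ → ℝ} (H : IVP A) (γ : ℝ) : Tendsto A atTop (𝓝 γ) ↔
    γ ∈ Lims A ∧ ∃ δ : ℝ, 0 < δ ∧ (Lims A ∩ Set.Ioo (γ - δ) (γ + δ)).Countable := by
  constructor
  · intro h
    refine ⟨h.mapClusterPt, 1, one_pos, ?_⟩
    refine (Set.countable_singleton γ).mono ?_
    rintro x ⟨hx, -⟩
    by_contra hne
    have hx' : MapClusterPt x atTop A := hx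
    rw [mapClusterPt_iff_frequently] at hx'
    obtain ⟨s, t, hs, ht, hst⟩ := t2_separation_nhds hne
    obtain ⟨n, hn1, hn2⟩ := ((hx' s hs).and_eventually (h.eventually ht)).exists
    exact (Set.disjoint_left.mp hst hn1 hn2)
  · rintro ⟨h1, δ, hδ, h2⟩
    exact isolated_gen H h1 hδ h2

/-- bounded above: three cases -/
theorem tri_gen {A : ℕ → ℝ} {b : ℝ} (hb : ∀ᶠ n in atTop, A n ≤ b) :
    Tendsto A atTop atBot ∨ (∃ γ, Tendsto A atTop (𝓝 γ)) ∨
    ∃ x y : ℝ, x < y ∧ (∃ᶠ n in atTop, A n ≤ x) ∧ (∃ᶠ n in atTop, y ≤ A n) := by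
  by_cases h1 : Tendsto A atTop atBot
  · exact Or.inl h1
  right
  rw [tendsto_atBot] at h1
  push Not at h1
  obtain ⟨D, hD⟩ := h1
  by_cases h2 : ∃ γ, Tendsto A atTop (𝓝 γ)
  · exact Or.inl h2
  right
  have h3 : ∃ᶠ n in atTop, A n ∈ Set.Icc D b :=
    (hD.and_eventually hb).mono fun n hn => ⟨(lt_of_not_ge (by simpa using hn.1)).le, hn.2⟩
  obtain ⟨γ, -, hγ⟩ := (isCompact_Icc (a := D) (b := b)).exists_mapClusterPt_of_frequently h3
  have hγ' : γ ∈ Lims A := hγ
  push Not at h2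
  obtain ⟨ε, hε, h | h⟩ := not_tendsto (h2 γ)
  · exact ⟨γ - ε, γ - ε / 2, by linarith, h,
      (freq_gt hγ' (show γ - ε / 2 < γ by linarith)).mono fun n hn => hn.le⟩
  · exact ⟨γ + ε / 2, γ + ε, by linarith,
      (freq_lt hγ' (show γ < γ + ε / 2 by linarith)).mono fun n hn => hn.le, h⟩

variable {v : ℕ → ℝ} {K : ℝ}

lemma small (R : Reg v K) (c : ℝ) {η : ℝ} (hη : 0 < η) :
    ∀ᶠ n in atTop, 2 * (K + 2 * |c|) * (1 + (0 : ℕ)) * f n ≤ η := by
  have t : Tendsto (fun n => 2 * (K + 2 * |c|) * (1 + (0 : ℕ)) * f n) atTop (𝓝 0) := by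
    simpa using f_tendsto.const_mul (2 * (K + 2 * |c|) * (1 + (0 : ℕ)))
  exact (t.eventually_lt_const hη).mono fun n hn => hn.le

/-- exponents have the intermediate value property -/
theorem ivp_ex (R : Reg v K) : IVP (ex v) := by
  intro c h1 h2
  show MapClusterPt c atTop (ex v)
  rw [mapClusterPt_iff_frequently]
  intro s hs
  obtain ⟨δ, hδ, hs⟩ := Metric.mem_nhds_iff.mp hs
  have key : ∃ᶠ n in atTop, |ex v n - c| < δ := by
    by_contra hcon
    rw [not_frequently] at hcon
    have hcon' : ∀ᶠ n in atTop, δ ≤ |ex v n - c| := hcon.mono fun n hn => not_lt.mp hn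
    have b1 : ∃ᶠ n in atTop, ex v n ≤ c - δ := by
      refine (h1.and_eventually hcon').mono ?_
      rintro n ⟨a1, a2⟩
      rw [abs_of_neg (by linarith)] at a2
      linarith
    have b2 : ∃ᶠ n in atTop, c + δ ≤ ex v n := by
      refine (h2.and_eventually hcon').mono ?_
      rintro n ⟨a1, a2⟩
      rw [abs_of_pos (by linarith)] at a2
      linarith
    have b3 := main_cross R one_pos (amp_low R (c := c) one_pos (by linarith) b1)
      (amp_high R (c := c) one_pos (by linarith) b2)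
    have hbig : ∀ᶠ n : ℕ in atTop, 1 < δ * Real.log n :=
      (log_tend.const_mul_atTop hδ).eventually_gt_atTop _
    obtain ⟨n, d1, d2, d3, d4, d5⟩ := (b3.and_eventually ((small R c (show (0 : ℝ) < 1 / 2 by
      norm_num)).and (hbig.and (hcon'.and (eventually_ge_atTop 2))))).exists
    have d6 := (d1 0 (Nat.zero_le n)).trans d2
    unfold dev at d6
    rw [Real.log_one, sub_zero, add_zero] at d6
    have hl := log_two_le d5
    have e : ex v n - c = (Real.log (v n) - c * Real.log n) / Real.log n := by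
      unfold ex
      field_simp
    rw [e, abs_div, abs_of_pos hl, le_div_iff₀ hl] at d4
    linarith
  exact key.mono fun n hn => hs (by rwa [Metric.mem_ball, Real.dist_eq])

/-- amplitudes have the intermediate value property -/
theorem ivp_amp (R : Reg v K) (c : ℝ) : IVP (fun n => v n / (n : ℝ) ^ c) := by
  intro B h1 h2
  have hB : 0 < B := by
    obtain ⟨n, a1, a2⟩ := (h1.and_eventually (eventually_ge_atTop 2)).exists
    have hn0 : (0 : ℝ) < n := by exact_mod_cast (by omega : 0 < n)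
    have hnc : (0 : ℝ) < (n : ℝ) ^ c := Real.rpow_pos_of_pos hn0 c
    have := div_pos (R.pos n a2) hnc
    linarith
  have c1 : ∃ᶠ n : ℕ in atTop, v n < B * (n : ℝ) ^ c := by
    refine (h1.and_eventually (eventually_ge_atTop 2)).mono ?_
    rintro n ⟨a1, a2⟩
    have hn0 : (0 : ℝ) < n := by exact_mod_cast (by omega : 0 < n)
    have hnc : (0 : ℝ) < (n : ℝ) ^ c := Real.rpow_pos_of_pos hn0 c
    rwa [div_lt_iff₀ hnc] at a1
  have c2 : ∃ᶠ n : ℕ in atTop, B * (n : ℝ) ^ c < v n := by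
    refine (h2.and_eventually (eventually_ge_atTop 2)).mono ?_
    rintro n ⟨a1, a2⟩
    have hn0 : (0 : ℝ) < n := by exact_mod_cast (by omega : 0 < n)
    have hnc : (0 : ℝ) < (n : ℝ) ^ c := Real.rpow_pos_of_pos hn0 c
    rwa [lt_div_iff₀ hnc] at a1
  show MapClusterPt B atTop (fun n : ℕ => v n / (n : ℝ) ^ c)
  rw [mapClusterPt_iff_frequently]
  intro s hs
  obtain ⟨δ, hδ, hs⟩ := Metric.mem_nhds_iff.mp hs
  set η := min 1 (δ / (4 * B)) with hη
  have hη0 : 0 < η := lt_min one_pos (by positivity)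
  have m1 := min_le_left 1 (δ / (4 * B))
  have m2 := min_le_right 1 (δ / (4 * B))
  refine ((main_cross R hB c1 c2).and_eventually ((small R c hη0).and
    (eventually_ge_atTop 2))).mono ?_
  rintro n ⟨d1, d2, d3⟩
  have d4 := (d1 0 (Nat.zero_le n)).trans d2
  rw [add_zero] at d4
  apply hs
  rw [Metric.mem_ball, Real.dist_eq]
  have hn0 : (0 : ℝ) < n := by exact_mod_cast (by omega : 0 < n)
  have hnc : (0 : ℝ) < (n : ℝ) ^ c := Real.rpow_pos_of_pos hn0 c
  have e1 : v n / (n : ℝ) ^ c = B * Real.exp (dev v c B n) := by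
    unfold dev
    rw [Real.exp_sub, Real.exp_sub, Real.exp_log (R.pos n d3), Real.exp_log hB, mul_comm c,
      ← Real.rpow_def_of_pos hn0]
    field_simp
  have e2 := Real.abs_exp_sub_one_le (x := dev v c B n) (d4.trans m1)
  rw [e1, show B * Real.exp (dev v c B n) - B = B * (Real.exp (dev v c B n) - 1) by ring,
    abs_mul, abs_of_pos hB]
  calc B * |Real.exp (dev v c B n) - 1| ≤ B * (2 * |dev v c B n|) :=
        mul_le_mul_of_nonneg_left e2 hB.le
    _ ≤ B * (2 * (δ / (4 * B))) := by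
        apply mul_le_mul_of_nonneg_left _ hB.le
        linarith
    _ = δ / 2 := by
        field_simp
        ring
    _ < δ := by linarith

end Pool.Agent.T9h7.PL
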